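import Pool.Agent.helper48.SG.SpecH

/-!
# Project sg (MP_2b8aea_gt), module H01: first consequences of `Comp`
-/

set_option autoImplicit false

open MeasureTheory Set Metric Filter Topology
open scoped ENNReal NNReal ComplexConjugate

namespace Pool.Agent.SG

theorem H01 (p1 : P01_stmt) (b1 : B01_stmt) (b5 : B05_stmt) (b14 : B14_stmt) (m1 : M01_stmt) :
    H01_stmt := by
  intro Γ _ A W ν C h
  obtain ⟨-, -, -, -, hinv⟩ := p1 Γ W
  obtain ⟨-, -, -, -, -, -, -, hmeas, -⟩ := b1 Γ A
  obtain ⟨hinf, hcnt, -⟩ := b14 Γ A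
  obtain ⟨hprob, -⟩ := m1 Γ A W ν h.stat
  have hhit : ∀ x y, W.hit x y = W.hit 1 (x⁻¹ * y) := by
    intro x y
    have := hinv x 1 (x⁻¹ * y)
    rw [mul_one, mul_inv_cancel_left] at this
    exact this
  refine ⟨hinf h.nonel, hcnt h.disc, ?_, ?_, ?_, ?_, hprob, ?_⟩
  · intro x y
    rw [hhit]
    exact h.up _
  · intro x y
    rw [hhit]
    exact h.lo _
  · intro x E hE
    unfold nux lax
    rw [Measure.map_apply (hmeas x) hE, Measure.map_apply (hmeas x) hE]
    exact h.nu_le _ (hmeas x hE)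
  · intro x E hE
    unfold nux lax
    rw [Measure.map_apply (hmeas x) hE, Measure.map_apply (hmeas x) hE]
    exact h.le_nu _ (hmeas x hE)
  · intro x
    haveI := b5.1
    exact Measure.isProbabilityMeasure_map (hmeas x).aemeasurable

end Pool.Agent.SG
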