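import Pool.Agent.helper17.SG.SpecB

/-!
# Project sg (MP_2b8aea_gt), module B08: counting and annulus sums
-/

set_option autoImplicit false

open MeasureTheory Set Metric Filter Topology
open scoped ENNReal NNReal ComplexConjugate

namespace Pool.Agent.SG

/-- the annulus count -/
theorem B08_ann (h3 : B03_stmt) (h7 : B07_stmt) (Γ : Type) [Group Γ] (A : DiscRep Γ)
    (hA : A.Discrete) (M : ℝ) (hM : 1 ≤ M) (τ : ℝ) (hτ : 0 < τ) (hτ1 : τ ≤ 1) (F : Finset Γ)
    (hF : ∀ γ ∈ F, τ / M ≤ A.kk γ ∧ A.kk γ ≤ τ) :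
    (F.card : ℝ) ≤ 10 * ({δ | 1 / (9 * (2 * M) ^ 4) ≤ A.kk δ}.ncard : ℝ) / τ := by
  classical
  obtain ⟨-, h7⟩ := h7 Γ A hA (2 * M) (by linarith)
  obtain ⟨-, -, -, hpt, -⟩ := h3 Γ A
  set N := {δ | 1 / (9 * (2 * M) ^ 4) ≤ A.kk δ}.ncard with hN
  set m : ℕ := ⌈Real.pi / τ⌉₊ with hm
  have hmr : Real.pi / τ ≤ m := Nat.le_ceil _
  have hmr2 : (m : ℝ) < Real.pi / τ + 1 := Nat.ceil_lt_add_one (by positivity)
  have h1 : F.card ≤ N * (Finset.Icc (-(m : ℤ)) m).card := by
    apply Finset.card_le_mul_card_image_of_maps_to (f := fun γ => ⌊Complex.arg (A.pt γ) / τ⌋)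
    · intro γ _
      rw [Finset.mem_Icc]
      have a1 := Complex.neg_pi_lt_arg (A.pt γ)
      have a2 := Complex.arg_le_pi (A.pt γ)
      constructor
      · rw [Int.le_floor]
        push_cast
        rw [le_div_iff₀ hτ]
        have : Real.pi ≤ m * τ := by rwa [div_le_iff₀ hτ] at hmr
        nlinarith
      · have : Complex.arg (A.pt γ) / τ ≤ m := by
          refine le_trans ?_ hmr
          exact div_le_div_of_nonneg_right a2 hτ.le
        have h2 : (⌊Complex.arg (A.pt γ) / τ⌋ : ℝ) ≤ ((m : ℤ) : ℝ) := by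
          push_cast
          exact (Int.floor_le _).trans this
        exact_mod_cast h2
    · intro k _
      apply h7 (Complex.exp (((k * τ : ℝ) : ℂ) * Complex.I)) τ hτ
      intro γ hγ
      rw [Finset.mem_filter] at hγ
      obtain ⟨hγF, hγk⟩ := hγ
      obtain ⟨b1, b2⟩ := hF γ hγF
      refine ⟨?_, ?_, ?_⟩
      · refine le_trans ?_ b1
        apply div_le_div_of_nonneg_left hτ.le (by linarith) (by linarith)
      · nlinarith
      · have hz := Complex.norm_mul_exp_arg_mul_I (A.pt γ)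
        have hn1 := hpt γ
        have hkk : 1 - ‖A.pt γ‖ ≤ τ := by
          have : A.kk γ = 1 - ‖A.pt γ‖ ^ 2 := rfl
          have h0 := norm_nonneg (A.pt γ)
          nlinarith
        have c1 : ‖A.pt γ - Complex.exp ((Complex.arg (A.pt γ) : ℂ) * Complex.I)‖ ≤ τ := by
          have e1 : A.pt γ - Complex.exp ((Complex.arg (A.pt γ) : ℂ) * Complex.I) =
              ((‖A.pt γ‖ - 1 : ℝ) : ℂ) * Complex.exp ((Complex.arg (A.pt γ) : ℂ) * Complex.I) := by
            nth_rewrite 1 [← hz]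
            push_cast
            ring
          rw [e1, norm_mul, Complex.norm_exp_ofReal_mul_I, mul_one, Complex.norm_real,
            Real.norm_eq_abs, abs_le]
          constructor <;> linarith [norm_nonneg (A.pt γ)]
        have c2 : ‖Complex.exp ((Complex.arg (A.pt γ) : ℂ) * Complex.I) -
            Complex.exp (((k * τ : ℝ) : ℂ) * Complex.I)‖ ≤ τ := by
          have e2 : ‖Complex.exp ((Complex.arg (A.pt γ) : ℂ) * Complex.I) -
            Complex.exp (((k * τ : ℝ) : ℂ) * Complex.I)‖ ≤ |Complex.arg (A.pt γ) - k * τ| := by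
            have e3 : Complex.exp ((Complex.arg (A.pt γ) : ℂ) * Complex.I) -
                Complex.exp (((k * τ : ℝ) : ℂ) * Complex.I) =
                Complex.exp (((k * τ : ℝ) : ℂ) * Complex.I) *
                (Complex.exp (Complex.I * ((Complex.arg (A.pt γ) - k * τ : ℝ) : ℂ)) - 1) := by
              rw [mul_sub, mul_one, ← Complex.exp_add]
              congr 2
              push_cast
              ring
            rw [e3, norm_mul, Complex.norm_exp_ofReal_mul_I, one_mul]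
            exact Real.norm_exp_I_mul_ofReal_sub_one_le
          refine e2.trans ?_
          have f1 : (k : ℝ) ≤ Complex.arg (A.pt γ) / τ := by
            rw [← hγk]
            exact Int.floor_le _
          have f2 : Complex.arg (A.pt γ) / τ < (k : ℝ) + 1 := by
            rw [← hγk]
            exact Int.lt_floor_add_one _
          rw [le_div_iff₀ hτ] at f1
          rw [div_lt_iff₀ hτ] at f2
          rw [abs_le]
          constructor <;> linarith
        calc ‖A.pt γ - Complex.exp (((k * τ : ℝ) : ℂ) * Complex.I)‖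
            = ‖(A.pt γ - Complex.exp ((Complex.arg (A.pt γ) : ℂ) * Complex.I)) +
              (Complex.exp ((Complex.arg (A.pt γ) : ℂ) * Complex.I) -
              Complex.exp (((k * τ : ℝ) : ℂ) * Complex.I))‖ := by rw [sub_add_sub_cancel]
          _ ≤ τ + τ := (norm_add_le _ _).trans (add_le_add c1 c2)
          _ ≤ 2 * M * τ := by nlinarith
  have h2 : ((Finset.Icc (-(m : ℤ)) m).card : ℝ) ≤ 10 / τ := by
    have e1 : (Finset.Icc (-(m : ℤ)) m).card = 2 * m + 1 := by
      rw [Int.card_Icc]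
      omega
    rw [e1]
    push_cast
    rw [le_div_iff₀ hτ]
    have hp := Real.pi_lt_d2
    have e2 : (m : ℝ) * τ ≤ Real.pi + τ := by
      have := mul_le_mul_of_nonneg_right hmr2.le hτ.le
      rwa [add_mul, div_mul_cancel₀ _ hτ.ne', one_mul] at this
    nlinarith
  have h3 : (F.card : ℝ) ≤ N * ((Finset.Icc (-(m : ℤ)) m).card : ℝ) := by exact_mod_cast h1
  refine h3.trans ?_
  calc (N : ℝ) * ((Finset.Icc (-(m : ℤ)) m).card : ℝ) ≤ N * (10 / τ) :=
        mul_le_mul_of_nonneg_left h2 (Nat.cast_nonneg _)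
    _ = 10 * (N : ℝ) / τ := by ring

/-- the count -/
theorem B08_count (h3 : B03_stmt) (h7 : B07_stmt) (Γ : Type) [Group Γ] (A : DiscRep Γ)
    (hA : A.Discrete) : ∀ n : ℕ, ∀ τ : ℝ, 0 < τ → τ ≤ 1 → 1 < 2 ^ (n + 1) * τ → ∀ F : Finset Γ,
    (∀ γ ∈ F, τ ≤ A.kk γ) →
    (F.card : ℝ) ≤ 20 * ({δ | 1 / (9 * (2 * (2 : ℝ)) ^ 4) ≤ A.kk δ}.ncard : ℝ) / τ := by
  classical
  set N := {δ | 1 / (9 * (2 * (2 : ℝ)) ^ 4) ≤ A.kk δ}.ncard with hN
  have hN0 : (0 : ℝ) ≤ N := Nat.cast_nonneg _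
  obtain ⟨hkk, -⟩ := h3 Γ A
  have big : ∀ τ : ℝ, 1 / 2 < τ → τ ≤ 1 → ∀ F : Finset Γ, (∀ γ ∈ F, τ ≤ A.kk γ) →
      (F.card : ℝ) ≤ 20 * (N : ℝ) / τ := by
    intro τ h1 h2 F hF
    have h4 := B08_ann h3 h7 Γ A hA 2 (by norm_num) 1 (by norm_num) le_rfl F (by
      intro γ hγ
      exact ⟨by linarith [hF γ hγ], (hkk γ).2⟩)
    rw [← hN] at h4
    refine h4.trans ?_
    rw [div_one, le_div_iff₀ (by linarith)]
    nlinarith
  intro n
  induction n with
  | zero =>
    intro τ h1 h2 h4 F hF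
    rw [zero_add, pow_one] at h4
    exact big τ (by linarith) h2 F hF
  | succ n ih =>
    intro τ h1 h2 h4 F hF
    rcases lt_or_ge (1 / 2) τ with h5 | h5
    · exact big τ h5 h2 F hF
    · have k1 := B08_ann h3 h7 Γ A hA 2 (by norm_num) (2 * τ) (by linarith) (by linarith)
        (F.filter fun γ => A.kk γ ≤ 2 * τ) (by
          intro γ hγ
          rw [Finset.mem_filter] at hγ
          exact ⟨by linarith [hF γ hγ.1], hγ.2⟩)
      have k2 := ih (2 * τ) (by linarith) (by linarith) (by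
          rw [pow_succ] at h4
          linarith) (F.filter fun γ => ¬ A.kk γ ≤ 2 * τ) (by
          intro γ hγ
          rw [Finset.mem_filter] at hγ
          exact (not_le.mp hγ.2).le)
      rw [← hN] at k1
      have k3 : (F.card : ℝ) = ((F.filter fun γ => A.kk γ ≤ 2 * τ).card : ℝ) +
          ((F.filter fun γ => ¬ A.kk γ ≤ 2 * τ).card : ℝ) := by
        exact_mod_cast (Finset.card_filter_add_card_filter_not (s := F) (fun γ => A.kk γ ≤ 2 * τ)).symm
      rw [k3]
      have k4 : 10 * (N : ℝ) / (2 * τ) + 20 * (N : ℝ) / (2 * τ) ≤ 20 * (N : ℝ) / τ := by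
        rw [← add_div, div_le_div_iff₀ (by linarith) h1]
        nlinarith [mul_nonneg hN0 h1.le]
      linarith

theorem B08 (h3 : B03_stmt) (h7 : B07_stmt) : B08_stmt := by
  classical
  intro Γ _ A hA M hM
  set N2 := {δ | 1 / (9 * (2 * (2 : ℝ)) ^ 4) ≤ A.kk δ}.ncard with hN2
  set N1 := {δ | 1 / (9 * (2 * M) ^ 4) ≤ A.kk δ}.ncard with hN1
  have h10 : (0 : ℝ) ≤ N1 := Nat.cast_nonneg _
  have h20 : (0 : ℝ) ≤ N2 := Nat.cast_nonneg _
  refine ⟨20 * N2 + 10 * N1 + 1, by positivity, ?_⟩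
  intro τ hτ hτ1
  refine ⟨?_, ?_⟩
  · intro F hF
    obtain ⟨n, hn⟩ := pow_unbounded_of_one_lt (1 / τ) (show (1 : ℝ) < 2 by norm_num)
    have hn2 : 1 < 2 ^ (n + 1) * τ := by
      rw [div_lt_iff₀ hτ] at hn
      have : (0 : ℝ) < 2 ^ n * τ := by positivity
      rw [pow_succ]
      linarith
    have h1 := B08_count h3 h7 Γ A hA n τ hτ hτ1 hn2 F hF
    rw [← hN2] at h1
    refine h1.trans ?_
    apply div_le_div_of_nonneg_right _ hτ.le
    linarith
  · rw [ENNReal.tsum_eq_iSup_sum]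
    apply iSup_le
    intro F
    set G := F.filter fun γ => τ / M ≤ A.kk γ ∧ A.kk γ ≤ τ with hG
    have e1 : ∑ γ ∈ F, {γ | τ / M ≤ A.kk γ ∧ A.kk γ ≤ τ}.indicator A.ke γ = ∑ γ ∈ G, A.ke γ := by
      rw [hG, Finset.sum_filter]
      apply Finset.sum_congr rfl
      intro γ _
      rw [Set.indicator_apply]
      rfl
    rw [e1]
    have e2 : ∀ γ ∈ G, A.ke γ ≤ ENNReal.ofReal τ := by
      intro γ hγ
      rw [hG, Finset.mem_filter] at hγ
      exact ENNReal.ofReal_le_ofReal hγ.2.2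
    refine (Finset.sum_le_sum e2).trans ?_
    rw [Finset.sum_const, nsmul_eq_mul, ← ENNReal.ofReal_natCast, ← ENNReal.ofReal_mul (Nat.cast_nonneg _)]
    apply ENNReal.ofReal_le_ofReal
    have h1 := B08_ann h3 h7 Γ A hA M hM τ hτ hτ1 G (by
      intro γ hγ
      rw [hG, Finset.mem_filter] at hγ
      exact hγ.2)
    rw [← hN1] at h1
    calc (G.card : ℝ) * τ ≤ 10 * (N1 : ℝ) / τ * τ := mul_le_mul_of_nonneg_right h1 hτ.le
      _ = 10 * N1 := by field_simp
      _ ≤ 20 * N2 + 10 * N1 + 1 := by linarith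

end Pool.Agent.SG
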