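import Pool.Agent.helper24.SG.SpecD

/-!
# Project sg (MP_2b8aea_gt), module D10: number of children
-/

set_option autoImplicit false

open MeasureTheory Set Metric Filter Topology
open scoped ENNReal NNReal ComplexConjugate

namespace Pool.Agent.SG

theorem D10 (h2 : D02_stmt) (h7 : D07_stmt) (b1 : B01_stmt) (b4 : B04_stmt) (b7 : B07_stmt)
    (b14 : B14_stmt) : D10_stmt := by
  classical
  intro Γ _ A κ ρ N₁ q m c r hA hκ hκ1 hρ hρ1 hq hN hr j k hk
  obtain ⟨-, -, hcirc, -⟩ := b1 Γ A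
  obtain ⟨-, -, hfin⟩ := b14 Γ A
  obtain ⟨-, d2, d3, d4⟩ := h2 q hq
  have hq0 : (0 : ℝ) < q := by exact_mod_cast hq
  have hqj : (0 : ℝ) < (q : ℝ) ^ j := by positivity
  set t : ℝ := 1 / (2 * (q : ℝ) ^ j) with ht
  have ht0 : 0 < t := by positivity
  set M : ℝ := 4 / κ + 15 / ρ with hM
  have hM4 : 4 / κ ≤ M := by
    rw [hM]
    have : 0 < 15 / ρ := by positivity
    linarith
  have hM15 : 15 / ρ ≤ M := by
    rw [hM]
    have : 0 < 4 / κ := by positivity
    linarith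
  have hM1 : 1 ≤ M := by
    have : 4 ≤ 4 / κ := by
      rw [le_div_iff₀ hκ]
      linarith
    linarith
  set ζ : ℂ := Complex.exp (2 * Real.pi * (((k : ℝ) / (q : ℝ) ^ j : ℝ)) * Complex.I) with hζ
  have hζm : ζ ∈ arcq q j k := by
    refine ⟨(k : ℝ) / (q : ℝ) ^ j, ⟨le_rfl, ?_⟩, rfl⟩
    apply div_lt_div_of_pos_right _ hqj
    linarith
  -- the set of the w
  have hFfin : {w : Γ | κ / 4 * t ≤ A.kk w ∧ A.kk w ≤ t ∧ ‖A.pt w - ζ‖ ≤ M * t}.Finite := by
    apply (hfin hA (κ / 4 * t) (by positivity)).subset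
    intro w hw
    exact hw.1
  set F : Finset Γ := hFfin.toFinset with hF
  have hFm : ∀ w, w ∈ F ↔ κ / 4 * t ≤ A.kk w ∧ A.kk w ≤ t ∧ ‖A.pt w - ζ‖ ≤ M * t := by
    intro w
    rw [hF, Set.Finite.mem_toFinset]
    rfl
  have hFc : F.card ≤ N₁ := by
    refine le_trans ?_ hN
    apply (b7 Γ A hA M hM1).2 ζ t ht0 F
    intro w hw
    obtain ⟨e1, e2, e3⟩ := (hFm w).mp hw
    refine ⟨?_, ?_, e3⟩
    · refine le_trans ?_ e1
      rw [div_le_iff₀ (by linarith)]
      have : 1 ≤ κ / 4 * M := by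
        calc (1 : ℝ) = κ / 4 * (4 / κ) := by field_simp
          _ ≤ κ / 4 * M := mul_le_mul_of_nonneg_left hM4 (by positivity)
      nlinarith
    · nlinarith
  -- the images
  set E : Γ → Fin m → Set ℂ := fun w l => A.act w '' (closedBall (c l) (r l) ∩ good A w ρ) with hE
  have hEc : ∀ w l, E w l ⊆ circ := by
    intro w l ξ hξ
    obtain ⟨η, ⟨-, hη, -⟩, rfl⟩ := hξ
    unfold circ at hη ⊢
    rw [mem_sphere_zero_iff_norm] at hη ⊢
    exact hcirc w η hη
  have hEd : ∀ w ∈ F, ∀ l, ∀ ξ ∈ E w l, ∀ ξ' ∈ E w l, ‖ξ - ξ'‖ ≤ 8 * t * r l / ρ ^ 2 := by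
    intro w hw l ξ hξ ξ' hξ'
    obtain ⟨e1, e2, e3⟩ := (hFm w).mp hw
    obtain ⟨η, ⟨hη0, hη1, hη2⟩, rfl⟩ := hξ
    obtain ⟨η', ⟨hη0', hη1', hη2'⟩, rfl⟩ := hξ'
    unfold circ at hη1 hη1'
    rw [mem_sphere_zero_iff_norm] at hη1 hη1'
    have h3 := (b4 Γ A w).2.2.1 η η' hη1 hη1'
    have h5 : ‖η - η'‖ ≤ 2 * r l := by
      rw [mem_closedBall, dist_eq_norm] at hη0 hη0'
      calc ‖η - η'‖ = ‖(η - c l) - (η' - c l)‖ := by rw [sub_sub_sub_cancel_right]
        _ ≤ ‖η - c l‖ + ‖η' - c l‖ := norm_sub_le _ _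
        _ ≤ 2 * r l := by linarith
    have h6 : ρ / 2 * (ρ / 2) ≤ ‖η - A.pt w⁻¹‖ * ‖η' - A.pt w⁻¹‖ :=
      mul_le_mul hη2 hη2' (by positivity) (norm_nonneg _)
    rw [le_div_iff₀ (by positivity)]
    have h8 : ‖A.act w η - A.act w η'‖ * (ρ / 2 * (ρ / 2)) ≤ t * (2 * r l) := by
      calc ‖A.act w η - A.act w η'‖ * (ρ / 2 * (ρ / 2))
          ≤ ‖A.act w η - A.act w η'‖ * (‖η - A.pt w⁻¹‖ * ‖η' - A.pt w⁻¹‖) :=
            mul_le_mul_of_nonneg_left h6 (norm_nonneg _)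
        _ = A.kk w * ‖η - η'‖ := h3
        _ ≤ t * (2 * r l) := mul_le_mul e2 h5 (norm_nonneg _) ht0.le
    nlinarith
  have hEm : ∀ w ∈ F, ∀ l, ((meet q (j + 1) (E w l)).card : ℝ) ≤ 6 * q * r l / ρ ^ 2 + 6 := by
    intro w hw l
    have h9 := h7 q (j + 1) (E w l) (8 * t * r l / ρ ^ 2) hq (hEc w l)
      (div_nonneg (mul_nonneg (by positivity) (hr l)) (by positivity)) (hEd w hw l)
    refine h9.trans (le_of_eq ?_)
    rw [ht, pow_succ]
    field_simp
    ring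
  -- the inclusion
  have hincl : (chi q j k (VT A (κ / 4) ρ t (⋃ l, closedBall (c l) (r l)))).image (fun i => q * k + i) ⊆
      F.biUnion fun w => Finset.univ.biUnion fun l => meet q (j + 1) (E w l) := by
    intro n hn
    rw [Finset.mem_image] at hn
    obtain ⟨i, hi, rfl⟩ := hn
    unfold chi at hi
    rw [Finset.mem_filter, Finset.mem_range] at hi
    obtain ⟨hiq, ξ, hξ1, hξ2⟩ := hi
    unfold VT at hξ2
    simp only [mem_iUnion] at hξ2
    obtain ⟨w, ⟨hw1, hw2⟩, η, ⟨hηU, hηg⟩, hηξ⟩ := hξ2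
    rw [mem_iUnion] at hηU
    obtain ⟨l, hl⟩ := hηU
    have hξE : ξ ∈ E w l := ⟨η, ⟨hl, hηg⟩, hηξ⟩
    have hξj : ξ ∈ arcq q j k := by
      have h10 := d2 j (q * k + i) hξ1
      have h11 : (q * k + i) / q = k := by
        rw [Nat.mul_add_div (by omega), Nat.div_eq_of_lt hiq, add_zero]
      rwa [h11] at h10
    have h12 : ‖ξ - ζ‖ ≤ 13 * t := by
      refine (d3 j k ξ hξj ζ hζm).trans ?_
      rw [ht]
      have hp := Real.pi_lt_d2
      rw [div_le_iff₀ hqj]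
      have : 13 * (1 / (2 * (q : ℝ) ^ j)) * (q : ℝ) ^ j = 13 / 2 := by field_simp
      rw [this]
      linarith
    have h13 : ‖A.pt w - ξ‖ ≤ 2 * t / ρ := by
      obtain ⟨hη1, hη2⟩ := hηg
      unfold circ at hη1
      rw [mem_sphere_zero_iff_norm] at hη1
      have h14 := (b4 Γ A w).1 η hη1
      rw [hηξ] at h14
      rw [norm_sub_rev, le_div_iff₀ hρ]
      have h15 : ‖ξ - A.pt w‖ * (ρ / 2) ≤ t := by
        calc ‖ξ - A.pt w‖ * (ρ / 2) ≤ ‖ξ - A.pt w‖ * ‖η - A.pt w⁻¹‖ :=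
              mul_le_mul_of_nonneg_left hη2 (norm_nonneg _)
          _ = A.kk w := h14
          _ ≤ t := hw2
      linarith
    have hwF : w ∈ F := by
      rw [hFm]
      refine ⟨hw1, hw2, ?_⟩
      calc ‖A.pt w - ζ‖ = ‖(A.pt w - ξ) + (ξ - ζ)‖ := by rw [sub_add_sub_cancel]
        _ ≤ 2 * t / ρ + 13 * t := (norm_add_le _ _).trans (add_le_add h13 h12)
        _ ≤ 15 / ρ * t := by
            have : 13 * t ≤ 13 / ρ * t := by
              apply mul_le_mul_of_nonneg_right _ ht0.le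
              rw [le_div_iff₀ hρ]
              linarith
            have e : 2 * t / ρ = 2 / ρ * t := by ring
            have e' : 15 / ρ * t = 2 / ρ * t + 13 / ρ * t := by ring
            rw [e, e']
            linarith
        _ ≤ M * t := mul_le_mul_of_nonneg_right hM15 ht0.le
    rw [Finset.mem_biUnion]
    refine ⟨w, hwF, ?_⟩
    rw [Finset.mem_biUnion]
    refine ⟨l, Finset.mem_univ _, ?_⟩
    unfold meet
    rw [Finset.mem_filter, Finset.mem_range]
    refine ⟨?_, ξ, hξ1, hξE⟩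
    calc q * k + i < q * k + q := by omega
      _ = q * (k + 1) := by ring
      _ ≤ q * q ^ j := Nat.mul_le_mul_left _ hk
      _ = q ^ (j + 1) := by ring
  have hcard := Finset.card_le_card hincl
  rw [Finset.card_image_of_injective _ (fun x y h => by simpa using h)] at hcard
  have h16 : ((chi q j k (VT A (κ / 4) ρ t (⋃ l, closedBall (c l) (r l)))).card : ℝ) ≤
      ∑ w ∈ F, ∑ l, ((meet q (j + 1) (E w l)).card : ℝ) := by
    have h17 : (chi q j k (VT A (κ / 4) ρ t (⋃ l, closedBall (c l) (r l)))).card ≤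
        ∑ w ∈ F, ∑ l, (meet q (j + 1) (E w l)).card := by
      refine hcard.trans (Finset.card_biUnion_le.trans ?_)
      apply Finset.sum_le_sum
      intro w _
      exact Finset.card_biUnion_le
    exact_mod_cast h17
  refine h16.trans ?_
  have h18 : ∀ w ∈ F, ∑ l, ((meet q (j + 1) (E w l)).card : ℝ) ≤
      6 * q * (∑ l, r l) / ρ ^ 2 + 6 * m := by
    intro w hw
    refine (Finset.sum_le_sum fun l _ => hEm w hw l).trans (le_of_eq ?_)
    rw [Finset.sum_add_distrib, ← Finset.sum_div, ← Finset.mul_sum, Finset.sum_const,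
      Finset.card_univ, Fintype.card_fin, nsmul_eq_mul]
    ring
  refine (Finset.sum_le_sum h18).trans ?_
  rw [Finset.sum_const, nsmul_eq_mul]
  apply mul_le_mul_of_nonneg_right
  · exact_mod_cast hFc
  · have : 0 ≤ ∑ l, r l := Finset.sum_nonneg fun l _ => hr l
    positivity

end Pool.Agent.SG
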